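import Mathlib
import Pool.Agent.W165.CE.Euler
import Pool.Agent.Y682.YS.Fin

/-!
# The places of a quadratic extension of number fields
-/

set_option autoImplicit false
set_option linter.unusedSectionVars false

open IsDedekindDomain NumberField

namespace Pool.Agent.X99.RL

open Pool.Agent.H921R2.TatePole (nm two_le_nm nm_summable below deg nm_eq)

variable {K F : Type} [Field K] [NumberField K] [Field F] [NumberField F] [Algebra K F]

/-- the place of `K` below a place of `F` -/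
noncomputable def und (w : HeightOneSpectrum (𝓞 F)) : HeightOneSpectrum (𝓞 K) where
  asIdeal := w.asIdeal.under (𝓞 K)
  isPrime := inferInstance
  ne_bot := by
    have : Algebra.IsIntegral (𝓞 K) (𝓞 F) := inferInstance
    exact Ideal.IsIntegral.comap_ne_bot (𝓞 K) w.ne_bot

theorem mem_und (w : HeightOneSpectrum (𝓞 F)) (c : 𝓞 K) :
    c ∈ (und (K := K) w).asIdeal ↔ algebraMap (𝓞 K) (𝓞 F) c ∈ w.asIdeal := Iff.rfl

theorem und_iff (w : HeightOneSpectrum (𝓞 F)) (v : HeightOneSpectrum (𝓞 K)) :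
    und w = v ↔ v.asIdeal.map (algebraMap (𝓞 K) (𝓞 F)) ≤ w.asIdeal := by
  rw [Ideal.map_le_iff_le_comap]
  constructor
  · rintro rfl
    exact le_rfl
  · intro h
    apply HeightOneSpectrum.ext
    have hm : v.asIdeal.IsMaximal := v.isPrime.isMaximal v.ne_bot
    exact (hm.eq_of_le (und (K := K) w).isPrime.ne_top h).symm

/-- the norms -/
theorem nm_pow (w : HeightOneSpectrum (𝓞 F)) {v : HeightOneSpectrum (𝓞 K)} (h : und w = v) :
    ∃ k : ℕ, 1 ≤ k ∧ nm w = nm v ^ k ∧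
      (k = 1 → ∀ X : 𝓞 F, ∃ c : 𝓞 K, X - algebraMap (𝓞 K) (𝓞 F) c ∈ w.asIdeal) := by
  subst h
  set v := und (K := K) w with hv
  have hmv : v.asIdeal.IsMaximal := v.isPrime.isMaximal v.ne_bot
  have hmw : w.asIdeal.IsMaximal := w.isPrime.isMaximal w.ne_bot
  let _ : Field (𝓞 K ⧸ v.asIdeal) := Ideal.Quotient.field v.asIdeal
  let _ : Field (𝓞 F ⧸ w.asIdeal) := Ideal.Quotient.field w.asIdeal
  have hfv : Finite (𝓞 K ⧸ v.asIdeal) := Ideal.finiteQuotientOfFreeOfNeBot v.asIdeal v.ne_bot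
  have hfw : Finite (𝓞 F ⧸ w.asIdeal) := Ideal.finiteQuotientOfFreeOfNeBot w.asIdeal w.ne_bot
  have hlo : w.asIdeal.LiesOver v.asIdeal := ⟨rfl⟩
  have hmf : Module.Finite (𝓞 K ⧸ v.asIdeal) (𝓞 F ⧸ w.asIdeal) := Module.Finite.of_finite
  have h1 := Module.natCard_eq_pow_finrank (K := 𝓞 K ⧸ v.asIdeal) (V := 𝓞 F ⧸ w.asIdeal)
  have hpos : 0 < Module.finrank (𝓞 K ⧸ v.asIdeal) (𝓞 F ⧸ w.asIdeal) := Module.finrank_pos
  refine ⟨_, hpos, ?_, fun hk X => ?_⟩
  · unfold nm
    rw [Ideal.absNorm_apply, Submodule.cardQuot_apply, Ideal.absNorm_apply, Submodule.cardQuot_apply]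
    exact h1
  · obtain ⟨c, hc⟩ := (Algebra.finrank_eq_one_iff_bijective_algebraMap.mp hk).2
      (Ideal.Quotient.mk w.asIdeal X)
    obtain ⟨c, rfl⟩ := Ideal.Quotient.mk_surjective c
    refine ⟨c, ?_⟩
    rw [← Ideal.Quotient.eq_zero_iff_mem, map_sub, ← hc, sub_eq_zero]
    rfl

/-- the degrees -/
theorem deg_of {w : HeightOneSpectrum (𝓞 F)} {v : HeightOneSpectrum (𝓞 K)} {k : ℕ} (hk : 1 ≤ k)
    (h : nm w = nm v ^ k) : below w = below v ∧ deg w = k * deg v := by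
  have h1 : Ideal.absNorm w.asIdeal = Ideal.absNorm v.asIdeal ^ k := h
  have hb : below w = below v := by
    unfold below
    apply Subtype.ext
    show (Ideal.absNorm w.asIdeal).minFac = (Ideal.absNorm v.asIdeal).minFac
    rw [h1, Nat.pow_minFac (by omega)]
  refine ⟨hb, ?_⟩
  unfold deg
  rw [h1, hb, Nat.factorization_pow]
  rfl

/-- the product over the places above `v` -/
theorem prod_le {m : ℕ} (h2 : Module.finrank K F = m) (v : HeightOneSpectrum (𝓞 K))
    (G : Finset (HeightOneSpectrum (𝓞 F))) (hG : ∀ w ∈ G, und w = v) :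
    ∏ w ∈ G, nm w ≤ nm v ^ m := by
  classical
  have hdvd : (∏ w ∈ G, w.asIdeal) ∣ v.asIdeal.map (algebraMap (𝓞 K) (𝓞 F)) := by
    refine Finset.prod_dvd_of_isRelPrime ?_ ?_
    · intro w _ u _ hvu
      rw [Function.onFun]
      have hne : w.asIdeal ≠ u.asIdeal := fun h => hvu (HeightOneSpectrum.ext h)
      have h1 : IsCoprime w.asIdeal u.asIdeal := by
        rw [Ideal.isCoprime_iff_sup_eq]
        exact (w.isPrime.isMaximal w.ne_bot).coprime_of_ne (u.isPrime.isMaximal u.ne_bot) hne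
      exact h1.isRelPrime
    · intro w hw
      rw [Ideal.dvd_iff_le]
      exact (und_iff w v).1 (hG w hw)
  have h3 : Ideal.absNorm (∏ w ∈ G, w.asIdeal) ∣
      Ideal.absNorm (v.asIdeal.map (algebraMap (𝓞 K) (𝓞 F))) := map_dvd Ideal.absNorm hdvd
  have hfr : Module.finrank (𝓞 K) (𝓞 F) = m := by
    rw [← h2]
    exact (IsFractionRing.finrank_eq (𝓞 K) K (𝓞 F) F).symm
  rw [Ideal.absNorm_algebraMap, map_prod, hfr] at h3
  exact Nat.le_of_dvd (pow_pos (by have := two_le_nm v; exact Nat.lt_of_lt_of_le Nat.zero_lt_two this) _) h3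

/-- there is a place above `v` -/
theorem exists_above {m : ℕ} (hm : 1 ≤ m) (h2 : Module.finrank K F = m)
    (v : HeightOneSpectrum (𝓞 K)) : ∃ w : HeightOneSpectrum (𝓞 F), und w = v := by
  have hfr : Module.finrank (𝓞 K) (𝓞 F) = m := by
    rw [← h2]
    exact (IsFractionRing.finrank_eq (𝓞 K) K (𝓞 F) F).symm
  have hne : v.asIdeal.map (algebraMap (𝓞 K) (𝓞 F)) ≠ ⊤ := by
    intro h
    have h1 : Ideal.absNorm (v.asIdeal.map (algebraMap (𝓞 K) (𝓞 F))) = nm v ^ m := by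
      rw [Ideal.absNorm_algebraMap, hfr]
      rfl
    rw [h, Ideal.absNorm_top] at h1
    have h3 := two_le_nm v
    have h4 := Nat.one_lt_pow (by omega : m ≠ 0) (by omega : 1 < nm v)
    omega
  obtain ⟨M, hM, hle⟩ := Ideal.exists_le_maximal _ hne
  have hb : M ≠ ⊥ := by
    rintro rfl
    rw [le_bot_iff] at hle
    have hinj : Function.Injective (algebraMap (𝓞 K) (𝓞 F)) := FaithfulSMul.algebraMap_injective _ _
    exact v.ne_bot ((Ideal.map_eq_bot_iff_of_injective hinj).1 hle)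
  exact ⟨⟨M, hM.isPrime, hb⟩, (und_iff _ _).2 hle⟩

/-- the nontrivial automorphism -/
theorem exists_conj (h2 : Module.finrank K F = 2) {x : F} {d : ℤ} (hx : x ^ 2 = (d : F))
    (hxK : ∀ k : K, algebraMap K F k ≠ x) : ∃ σ : F ≃ₐ[K] F, σ x = -x := by
  have hfd : FiniteDimensional K F := Module.finite_of_finrank_pos (by rw [h2]; norm_num)
  have hgal : IsGalois K F := by
    refine Pool.Agent.Y682.YS.galois (n := 1) (fun _ => d) (fun _ => x) (fun _ => hx) ?_
    intro S hS hxS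
    let S' : IntermediateField K F := Subfield.toIntermediateField S hS
    have h3 : Module.finrank K S' ∣ 2 := by
      rw [← h2]
      exact Dvd.intro _ (Module.finrank_mul_finrank K S' F)
    have h4 : S' = ⊤ := by
      rcases (Nat.dvd_prime Nat.prime_two).1 h3 with h5 | h5
      · exfalso
        have h6 := IntermediateField.finrank_eq_one_iff.1 h5
        have h7 : x ∈ S' := hxS 0
        rw [h6, IntermediateField.mem_bot] at h7
        obtain ⟨k, hk⟩ := h7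
        exact hxK k hk
      · exact IntermediateField.eq_of_le_of_finrank_eq le_top
          (by rw [h5, IntermediateField.finrank_top', h2])
    rw [eq_top_iff]
    intro y _
    have h8 : y ∈ S' := by rw [h4]; trivial
    exact h8
  obtain ⟨σ, hσ⟩ : ∃ σ : F ≃ₐ[K] F, σ x ≠ x := by
    by_contra hcon
    push Not at hcon
    have h3 := (IsGalois.mem_bot_iff_fixed x).2 hcon
    rw [IntermediateField.mem_bot] at h3
    obtain ⟨k, hk⟩ := h3
    exact hxK k hk
  refine ⟨σ, ?_⟩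
  have h3 : σ x ^ 2 = x ^ 2 := by rw [← map_pow, hx, map_intCast]
  rcases sq_eq_sq_iff_eq_or_eq_neg.1 h3 with h | h
  · exact absurd h hσ
  · exact h

/-- two places above `v` -/
theorem two_above (h2 : Module.finrank K F = 2) {X : 𝓞 F} {d : ℤ} (hX : X ^ 2 = (d : 𝓞 F))
    (hxK : ∀ k : K, algebraMap K F k ≠ (X : F)) {v : HeightOneSpectrum (𝓞 K)}
    (hv : ((2 * d : ℤ) : 𝓞 K) ∉ v.asIdeal) {c : 𝓞 K} (hc : c ^ 2 - (d : 𝓞 K) ∈ v.asIdeal) :
    ∃ w₁ w₂ : HeightOneSpectrum (𝓞 F), w₁ ≠ w₂ ∧ und w₁ = v ∧ und w₂ = v := by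
  have hx : (X : F) ^ 2 = (d : F) := by
    have := congrArg (algebraMap (𝓞 F) F) hX
    rw [map_pow, map_intCast] at this
    exact this
  obtain ⟨σ, hσ⟩ := exists_conj h2 hx hxK
  let τ : 𝓞 F ≃+* 𝓞 F := RingOfIntegers.mapRingEquiv (σ : F ≃+* F)
  have hτX : τ X = -X := by
    apply RingOfIntegers.coe_injective
    show σ (X : F) = ((-X : 𝓞 F) : F)
    rw [hσ]
    exact (map_neg (algebraMap (𝓞 F) F) X).symm
  have hτc : ∀ a : 𝓞 K, τ (algebraMap (𝓞 K) (𝓞 F) a) = algebraMap (𝓞 K) (𝓞 F) a := by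
    intro a
    apply RingOfIntegers.coe_injective
    show σ (algebraMap K F (a : K)) = algebraMap K F (a : K)
    exact σ.commutes _
  obtain ⟨w, hw⟩ := exists_above (by norm_num) h2 v
  let w' : HeightOneSpectrum (𝓞 F) := HeightOneSpectrum.comap (τ : 𝓞 F →+* 𝓞 F) τ.surjective w
  have hmem : ∀ y : 𝓞 F, y ∈ w'.asIdeal ↔ τ y ∈ w.asIdeal := fun y => Iff.rfl
  have hw' : und (K := K) w' = v := by
    rw [← hw]
    apply HeightOneSpectrum.ext
    ext a
    rw [mem_und, mem_und, hmem, hτc]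
  refine ⟨w, w', ?_, hw, hw'⟩
  intro he
  set C : 𝓞 F := algebraMap (𝓞 K) (𝓞 F) c with hC
  have hwp := w.isPrime
  have h3 : (X - C) * (X + C) ∈ w.asIdeal := by
    have h4 : algebraMap (𝓞 K) (𝓞 F) (c ^ 2 - (d : 𝓞 K)) ∈ w.asIdeal := by
      rw [← mem_und (K := K), hw]
      exact hc
    have e : (X - C) * (X + C) = -(algebraMap (𝓞 K) (𝓞 F) (c ^ 2 - (d : 𝓞 K))) := by
      rw [map_sub, map_pow, map_intCast, ← hC, ← hX]
      ring
    rw [e]
    exact neg_mem h4
  -- both factors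
  have h5 : X - C ∈ w.asIdeal ∧ X + C ∈ w.asIdeal := by
    rcases hwp.mem_or_mem h3 with h | h
    · have h6 : X - C ∈ w'.asIdeal := by rw [← he]; exact h
      rw [hmem, map_sub, hτX, hC, hτc, ← hC] at h6
      refine ⟨h, ?_⟩
      have := neg_mem h6
      rwa [neg_sub, sub_neg_eq_add, add_comm] at this
    · have h6 : X + C ∈ w'.asIdeal := by rw [← he]; exact h
      rw [hmem, map_add, hτX, hC, hτc, ← hC] at h6
      refine ⟨?_, h⟩
      have := neg_mem h6
      rwa [neg_add, neg_neg, ← sub_eq_add_neg] at this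
  have h7 : algebraMap (𝓞 K) (𝓞 F) (2 * c) ∈ w.asIdeal := by
    have h8 := sub_mem h5.2 h5.1
    have e : X + C - (X - C) = algebraMap (𝓞 K) (𝓞 F) (2 * c) := by
      rw [map_mul, map_ofNat, ← hC]
      ring
    rwa [e] at h8
  rw [← mem_und (K := K), hw] at h7
  have hvp := v.isPrime
  have h8 : ((2 * d : ℤ) : 𝓞 K) * 2 ∈ v.asIdeal := by
    have e : ((2 * d : ℤ) : 𝓞 K) * 2 = (2 * c) * (2 * c) - 4 * (c ^ 2 - (d : 𝓞 K)) := by
      push_cast
      ring
    rw [e]
    exact sub_mem (Ideal.mul_mem_left _ _ h7) (Ideal.mul_mem_left _ _ hc)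
  rcases hvp.mem_or_mem h8 with h | h
  · exact hv h
  · apply hv
    push_cast
    exact Ideal.mul_mem_right _ _ h

/-- the places above `v`, if `d` is a square modulo `v` -/
theorem split (h2 : Module.finrank K F = 2) {X : 𝓞 F} {d : ℤ} (hX : X ^ 2 = (d : 𝓞 F))
    (hxK : ∀ k : K, algebraMap K F k ≠ (X : F)) {v : HeightOneSpectrum (𝓞 K)}
    (hv : ((2 * d : ℤ) : 𝓞 K) ∉ v.asIdeal) {c : 𝓞 K} (hc : c ^ 2 - (d : 𝓞 K) ∈ v.asIdeal) :
    ∃ w₁ w₂ : HeightOneSpectrum (𝓞 F), w₁ ≠ w₂ ∧ (∀ w, und w = v ↔ w = w₁ ∨ w = w₂) ∧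
      below w₁ = below v ∧ below w₂ = below v ∧ deg w₁ = deg v ∧ deg w₂ = deg v := by
  classical
  obtain ⟨w₁, w₂, hne, h₁, h₂⟩ := two_above h2 hX hxK hv hc
  have hv2 := two_le_nm v
  have hv0 : 0 < nm v := by omega
  obtain ⟨k₁, hk₁, e₁, -⟩ := nm_pow w₁ h₁
  obtain ⟨k₂, hk₂, e₂, -⟩ := nm_pow w₂ h₂
  have hp := prod_le h2 v {w₁, w₂} (by
    intro w hw
    rcases Finset.mem_insert.1 hw with rfl | hw
    · exact h₁
    · rw [Finset.mem_singleton.1 hw]
      exact h₂)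
  rw [Finset.prod_pair hne, e₁, e₂, ← pow_add, Nat.pow_le_pow_iff_right (by omega)] at hp
  have hk₁' : k₁ = 1 := by omega
  have hk₂' : k₂ = 1 := by omega
  subst hk₁'
  subst hk₂'
  obtain ⟨b₁, d₁⟩ := deg_of le_rfl e₁
  obtain ⟨b₂, d₂⟩ := deg_of le_rfl e₂
  rw [one_mul] at d₁ d₂
  refine ⟨w₁, w₂, hne, fun w => ⟨fun hw => ?_, fun hw => ?_⟩, b₁, b₂, d₁, d₂⟩
  · by_contra hcon
    rw [not_or] at hcon
    obtain ⟨k, hk, e, -⟩ := nm_pow w hw
    have hp := prod_le h2 v {w, w₁, w₂} (by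
      intro u hu
      rcases Finset.mem_insert.1 hu with rfl | hu
      · exact hw
      · rcases Finset.mem_insert.1 hu with rfl | hu
        · exact h₁
        · rw [Finset.mem_singleton.1 hu]
          exact h₂)
    rw [Finset.prod_insert (by
      rw [Finset.mem_insert, Finset.mem_singleton, not_or]
      exact hcon), Finset.prod_pair hne, e₁, e₂, e, ← pow_add, ← pow_add,
      Nat.pow_le_pow_iff_right (by omega)] at hp
    omega
  · rcases hw with rfl | rfl
    · exact h₁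
    · exact h₂

/-- the place above `v`, if `d` is not a square modulo `v` -/
theorem inert (h2 : Module.finrank K F = 2) {X : 𝓞 F} {d : ℤ} (hX : X ^ 2 = (d : 𝓞 F))
    {v : HeightOneSpectrum (𝓞 K)} (hc : ∀ c : 𝓞 K, c ^ 2 - (d : 𝓞 K) ∉ v.asIdeal) :
    ∃ w₁ : HeightOneSpectrum (𝓞 F), (∀ w, und w = v ↔ w = w₁) ∧
      below w₁ = below v ∧ deg w₁ = 2 * deg v := by
  classical
  have hv2 := two_le_nm v
  have key : ∀ w : HeightOneSpectrum (𝓞 F), und w = v → ∃ k, 2 ≤ k ∧ nm w = nm v ^ k := by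
    intro w hw
    obtain ⟨k, hk, e, h⟩ := nm_pow w hw
    refine ⟨k, ?_, e⟩
    by_contra hcon
    have hk1 : k = 1 := by omega
    obtain ⟨c, h3⟩ := h hk1 X
    apply hc c
    have h4 : algebraMap (𝓞 K) (𝓞 F) (c ^ 2 - (d : 𝓞 K)) ∈ w.asIdeal := by
      have e : algebraMap (𝓞 K) (𝓞 F) (c ^ 2 - (d : 𝓞 K)) =
          -((X + algebraMap (𝓞 K) (𝓞 F) c) * (X - algebraMap (𝓞 K) (𝓞 F) c)) := by
        rw [map_sub, map_pow, map_intCast, ← hX]
        ring
      rw [e]
      exact neg_mem (Ideal.mul_mem_left _ _ h3)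
    rw [← mem_und (K := K), hw] at h4
    exact h4
  obtain ⟨w₁, h₁⟩ := exists_above (by norm_num) h2 v
  obtain ⟨k₁, hk₁, e₁⟩ := key w₁ h₁
  have hp := prod_le h2 v {w₁} (by
    intro w hw
    rw [Finset.mem_singleton.1 hw]
    exact h₁)
  rw [Finset.prod_singleton, e₁, Nat.pow_le_pow_iff_right (by omega)] at hp
  have hk₁' : k₁ = 2 := by omega
  subst hk₁'
  obtain ⟨b₁, d₁⟩ := deg_of (by norm_num) e₁
  refine ⟨w₁, fun w => ⟨fun hw => ?_, fun hw => ?_⟩, b₁, d₁⟩
  · by_contra hcon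
    obtain ⟨k, hk, e⟩ := key w hw
    have hp := prod_le h2 v {w, w₁} (by
      intro u hu
      rcases Finset.mem_insert.1 hu with rfl | hu
      · exact hw
      · rw [Finset.mem_singleton.1 hu]
        exact h₁)
    rw [Finset.prod_pair hcon, e₁, e, ← pow_add, Nat.pow_le_pow_iff_right (by omega)] at hp
    omega
  · rw [hw]
    exact h₁

/-- the place above `v` in an extension of degree one -/
theorem trivial_ext (h1 : Module.finrank K F = 1) (v : HeightOneSpectrum (𝓞 K)) :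
    ∃ w₁ : HeightOneSpectrum (𝓞 F), (∀ w, und w = v ↔ w = w₁) ∧
      below w₁ = below v ∧ deg w₁ = deg v := by
  classical
  have hv2 := two_le_nm v
  obtain ⟨w₁, h₁⟩ := exists_above le_rfl h1 v
  obtain ⟨k₁, hk₁, e₁, -⟩ := nm_pow w₁ h₁
  have hp := prod_le h1 v {w₁} (by
    intro w hw
    rw [Finset.mem_singleton.1 hw]
    exact h₁)
  rw [Finset.prod_singleton, e₁, Nat.pow_le_pow_iff_right (by omega)] at hp
  have hk₁' : k₁ = 1 := by omega
  subst hk₁'
  obtain ⟨b₁, d₁⟩ := deg_of le_rfl e₁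
  rw [one_mul] at d₁
  refine ⟨w₁, fun w => ⟨fun hw => ?_, fun hw => ?_⟩, b₁, d₁⟩
  · by_contra hcon
    obtain ⟨k, hk, e, -⟩ := nm_pow w hw
    have hp := prod_le h1 v {w, w₁} (by
      intro u hu
      rcases Finset.mem_insert.1 hu with rfl | hu
      · exact hw
      · rw [Finset.mem_singleton.1 hu]
        exact h₁)
    rw [Finset.prod_pair hcon, e₁, e, ← pow_add, Nat.pow_le_pow_iff_right (by omega)] at hp
    omega
  · rw [hw]
    exact h₁

end Pool.Agent.X99.RL
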