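import Mathlib
import Pool.Agent.X99.RL.Spl
import Pool.Agent.Y73.QMQ1

/-!
# The Euler product over a quadratic extension of a number field
-/

set_option autoImplicit false
set_option linter.unusedSectionVars false

open IsDedekindDomain NumberField

namespace Pool.Agent.X99.RL

open Pool.Agent.H921R2.TatePole (nm two_le_nm nm_summable below deg nm_eq)
open Pool.Agent.H82R3.EK (luc luc_eq nm_cpow prime_cpow)
open Pool.Agent.Y19.QT (IsLFunK av qv)
open Pool.Agent.Y73.QMQ1 (fK fK_good fK_bad multipliable_fK)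
open Pool.Agent.Y705.QT (pf pf_diff ap_twist)
open Pool.Agent.Y19.QT
open W165.CE (intCast_mem_iff exists_roots')
open Pool.Agent.H306R2.RZ (js)

/-! ### Lucas sequences -/

theorem luc_neg (t u : ℤ) (n : ℕ) : luc (-t) u n = (-1) ^ n * luc t u n := by
  obtain ⟨α, β, h1, h2⟩ := exists_roots' (t : ℂ) (u : ℂ)
  have e1 := luc_eq h1 h2 n
  have e2 := luc_eq (a := -t) (q := u) (α := -α) (β := -β) (by rw [Int.cast_neg, ← h1]; ring)
    (by rw [← h2]; ring) n
  have e3 : ((luc (-t) u n : ℤ) : ℂ) = (((-1) ^ n * luc t u n : ℤ) : ℂ) := by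
    push_cast
    rw [e1, e2, neg_pow, neg_pow β]
    ring
  exact_mod_cast e3

theorem luc_double (t u : ℤ) (n : ℕ) : luc t u (2 * n) = luc t u n ^ 2 - 2 * u ^ n := by
  obtain ⟨α, β, h1, h2⟩ := exists_roots' (t : ℂ) (u : ℂ)
  have e1 := luc_eq h1 h2 n
  have e2 := luc_eq h1 h2 (2 * n)
  have e3 : ((luc t u (2 * n) : ℤ) : ℂ) = ((luc t u n ^ 2 - 2 * u ^ n : ℤ) : ℂ) := by
    push_cast
    rw [e1, e2, ← h2, mul_pow]
    ring
  exact_mod_cast e3

/-! ### The symbol -/

theorem half_pow {p f : ℕ} (hp : Odd p) :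
    p ^ f / 2 = p / 2 * ∑ i ∈ Finset.range f, p ^ i := by
  obtain ⟨k, rfl⟩ := hp
  have h1 : (2 * k + 1) ^ f = 2 * (k * ∑ i ∈ Finset.range f, (2 * k + 1) ^ i) + 1 := by
    have h2 := Nat.geomSum_eq (m := 2 * k + 1)
    have h3 := geom_sum_mul_add (2 * k) f
    rw [← h3]
    ring
  rw [h1]
  have h4 : (2 * k + 1) / 2 = k := by omega
  rw [h4]
  omega

theorem sum_parity {p : ℕ} (hp : Odd p) (f : ℕ) :
    (∑ i ∈ Finset.range f, p ^ i) % 2 = f % 2 := by
  induction f with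
  | zero => rfl
  | succ n ih =>
    rw [Finset.sum_range_succ, Nat.add_mod, ih]
    have : p ^ n % 2 = 1 := Nat.odd_iff.1 hp.pow
    omega

variable {K F : Type} [Field K] [NumberField K] [Field F] [NumberField F] [Algebra K F]

/-- squares modulo `v` -/
theorem sq_iff {d : ℤ} (v : HeightOneSpectrum (𝓞 K)) (h2 : (below v : ℕ) ≠ 2)
    (hd : ¬ ((below v : ℕ) : ℤ) ∣ d) :
    (∃ c : 𝓞 K, c ^ 2 - (d : 𝓞 K) ∈ v.asIdeal) ↔ jacobiSym d (below v) ^ deg v = 1 := by
  obtain ⟨e1, e2, e3⟩ := nm_eq v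
  have hmax : v.asIdeal.IsMaximal := v.isPrime.isMaximal v.ne_bot
  let _ : Field (𝓞 K ⧸ v.asIdeal) := Ideal.Quotient.field v.asIdeal
  have : Finite (𝓞 K ⧸ v.asIdeal) := Ideal.finiteQuotientOfFreeOfNeBot v.asIdeal v.ne_bot
  let _ : Fintype (𝓞 K ⧸ v.asIdeal) := Fintype.ofFinite _
  set p : ℕ := (below v : ℕ) with hp
  have hpp : p.Prime := (below v).2
  have : Fact p.Prime := ⟨hpp⟩
  have hchar : ringChar (𝓞 K ⧸ v.asIdeal) = p := by
    apply CharP.ringChar_of_prime_eq_zero hpp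
    have := Ideal.Quotient.eq_zero_iff_mem.2 e3
    simpa using this
  have hcp : CharP (𝓞 K ⧸ v.asIdeal) p := by rw [← hchar]; infer_instance
  have hcard : Fintype.card (𝓞 K ⧸ v.asIdeal) = p ^ deg v := by
    rw [← e1]
    unfold nm
    rw [Ideal.absNorm_apply, Submodule.cardQuot_apply, Nat.card_eq_fintype_card]
  have hodd : Odd p := hpp.odd_of_ne_two h2
  have hd0 : ((d : ℤ) : 𝓞 K ⧸ v.asIdeal) ≠ 0 := by
    rw [Ne, CharP.intCast_eq_zero_iff (𝓞 K ⧸ v.asIdeal) p]
    exact hd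
  have h3 : (∃ c : 𝓞 K, c ^ 2 - (d : 𝓞 K) ∈ v.asIdeal) ↔
      IsSquare ((d : ℤ) : 𝓞 K ⧸ v.asIdeal) := by
    constructor
    · rintro ⟨c, hc⟩
      refine ⟨Ideal.Quotient.mk _ c, ?_⟩
      have := Ideal.Quotient.eq_zero_iff_mem.2 hc
      rw [map_sub, map_pow, map_intCast, sub_eq_zero] at this
      rw [← this]
      ring
    · rintro ⟨y, hy⟩
      obtain ⟨c, rfl⟩ := Ideal.Quotient.mk_surjective y
      refine ⟨c, ?_⟩
      rw [← Ideal.Quotient.eq_zero_iff_mem, map_sub, map_pow, map_intCast, hy]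
      ring
  rw [h3, FiniteField.isSquare_iff (by rw [hchar]; exact h2) hd0, hcard, half_pow hodd, pow_mul]
  have h4 : ((d : ℤ) : 𝓞 K ⧸ v.asIdeal) ^ (p / 2) = ((jacobiSym d p : ℤ) : 𝓞 K ⧸ v.asIdeal) := by
    have h5 := legendreSym.eq_pow p d
    have h6 := congrArg (ZMod.castHom (dvd_refl p) (𝓞 K ⧸ v.asIdeal)) h5
    rw [map_pow, map_intCast, map_intCast] at h6
    rw [← h6, jacobiSym.legendreSym.to_jacobiSym]
  rw [h4]
  have hne : (-1 : 𝓞 K ⧸ v.asIdeal) ≠ 1 := by
    have := Ring.neg_one_ne_one_of_char_ne_two (R := 𝓞 K ⧸ v.asIdeal) (by rw [hchar]; exact h2)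
    exact this
  have hjac : jacobiSym d p = 1 ∨ jacobiSym d p = -1 := by
    rw [← jacobiSym.legendreSym.to_jacobiSym]
    apply legendreSym.eq_one_or_neg_one
    rw [Ne, ZMod.intCast_zmod_eq_zero_iff_dvd]
    exact hd
  rcases hjac with h | h
  · rw [h]
    simp
  · rw [h]
    have hN := sum_parity hodd (deg v)
    push_cast
    rcases Nat.even_or_odd (deg v) with he | ho
    · have : Even (∑ i ∈ Finset.range (deg v), p ^ i) := by
        rw [Nat.even_iff] at he ⊢
        omega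
      rw [this.neg_one_pow, he.neg_one_pow]
      simp
    · have : Odd (∑ i ∈ Finset.range (deg v), p ^ i) := by
        rw [Nat.odd_iff] at ho ⊢
        omega
      rw [this.neg_one_pow, ho.neg_one_pow]
      exact iff_of_false hne (by norm_num)

/-! ### The local factors -/

open Pool.Agent.Y19.QT in
theorem ap_tw {a b d : ℤ} {p : ℕ} (hp : p.Prime) (h2 : p ≠ 2) (hd : ¬ (p : ℤ) ∣ d) :
    ap (a * d ^ 2) (b * d ^ 3) p = jacobiSym d p * ap a b p := by
  have h1 := ap_twist a b d p hp h2 hd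
  unfold js at h1
  exact_mod_cast h1

theorem good_tw {a b d D : ℤ} (hdD : d ∣ D) {p : ℕ} (hp : p.Prime)
    (h : ¬ (p : ℤ) ∣ 2 * (4 * a ^ 3 + 27 * b ^ 2) * D) :
    ¬ (p : ℤ) ∣ 2 * (4 * (a * d ^ 2) ^ 3 + 27 * (b * d ^ 3) ^ 2) * D := by
  intro h1
  have e : 2 * (4 * (a * d ^ 2) ^ 3 + 27 * (b * d ^ 3) ^ 2) * D =
      (2 * (4 * a ^ 3 + 27 * b ^ 2) * D) * d ^ 6 := by ring
  rw [e] at h1
  have hpi := Nat.prime_iff_prime_int.1 hp
  rcases hpi.dvd_or_dvd h1 with h2 | h2
  · exact h h2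
  · exact h (((hpi.dvd_of_dvd_pow h2).trans hdD).mul_left _)

/-- the product of the local factors of the curve and of its twist -/
theorem loc {a b d D : ℤ} (hdD : d ∣ D) (s : ℂ) (v : HeightOneSpectrum (𝓞 K))
    (h : ¬ ((below v : ℕ) : ℤ) ∣ 2 * (4 * a ^ 3 + 27 * b ^ 2) * D) :
    (jacobiSym d (below v) ^ deg v = 1 →
      fK (a * d ^ 2) (b * d ^ 3) D s v = fK a b D s v) ∧
    (jacobiSym d (below v) ^ deg v ≠ 1 → fK a b D s v * fK (a * d ^ 2) (b * d ^ 3) D s v =
      (1 - ((luc (ap a b (below v)) (below v : ℕ) (2 * deg v) : ℤ) : ℂ) *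
        (((below v : ℕ) : ℂ) ^ (-s)) ^ (2 * deg v) +
      (((below v : ℕ) : ℂ) * (((below v : ℕ) : ℂ) ^ (-s)) ^ 2) ^ (2 * deg v))⁻¹) := by
  have hpp : (below v : ℕ).Prime := (below v).2
  have : Fact (below v : ℕ).Prime := ⟨hpp⟩
  have h2 : (below v : ℕ) ≠ 2 := by
    intro h2
    apply h
    rw [h2]
    exact (dvd_mul_right _ _).mul_right _
  have hd : ¬ ((below v : ℕ) : ℤ) ∣ d := fun h3 => h ((h3.trans hdD).mul_left _)
  have hjac : jacobiSym d (below v) = 1 ∨ jacobiSym d (below v) = -1 := by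
    rw [← jacobiSym.legendreSym.to_jacobiSym]
    apply legendreSym.eq_one_or_neg_one
    rw [Ne, ZMod.intCast_zmod_eq_zero_iff_dvd]
    exact hd
  rw [fK_good v s h, fK_good v s (good_tw hdD hpp h), ap_tw hpp h2 hd]
  rcases hjac with h3 | h3
  · rw [h3, one_mul]
    exact ⟨fun _ => rfl, fun h4 => absurd (one_pow _) h4⟩
  · rw [h3, neg_one_mul, luc_neg]
    rcases Nat.even_or_odd (deg v) with he | ho
    · rw [he.neg_one_pow, one_mul]
      exact ⟨fun _ => rfl, fun h4 => absurd rfl h4⟩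
    · rw [ho.neg_one_pow, luc_double]
      refine ⟨fun h4 => absurd h4 (by norm_num), fun _ => ?_⟩
      rw [← mul_inv]
      congr 1
      push_cast
      ring

/-- **the Euler product over a quadratic extension** -/
theorem quad {a b d D : ℤ} (hab : 4 * a ^ 3 + 27 * b ^ 2 ≠ 0) (hD : D ≠ 0) (hdD : d ∣ D)
    (h2 : Module.finrank K F = 2) {x : F} (hx : x ^ 2 = (d : F))
    (hxK : ∀ k : K, algebraMap K F k ≠ x) {f g : ℂ → ℂ} (hf : IsLFunK K a b D f)
    (hg : IsLFunK K (a * d ^ 2) (b * d ^ 3) D g) : IsLFunK F a b D (fun s => f s * g s) := by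
  classical
  have hint : IsIntegral ℤ x := by
    refine IsIntegral.of_pow (n := 2) (by norm_num) ?_
    rw [hx]
    exact isIntegral_algebraMap (R := ℤ) (A := F) (x := d)
  obtain ⟨X, hX⟩ : ∃ X : 𝓞 F, (X : F) = x := ⟨⟨x, hint⟩, rfl⟩
  have hX2 : X ^ 2 = (d : 𝓞 F) := by
    apply RingOfIntegers.coe_injective
    rw [map_pow, map_intCast]
    show (X : F) ^ 2 = (d : F)
    rw [hX, hx]
  have hxK' : ∀ k : K, algebraMap K F k ≠ (X : F) := by
    rw [hX]
    exact hxK
  refine ⟨hf.1.mul hg.1, fun s hs => ?_⟩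
  have h1 : HasProd (fK (K := K) a b D s) (f s) := hf.2 s hs
  have h3 : HasProd (fK (K := K) (a * d ^ 2) (b * d ^ 3) D s) (g s) := hg.2 s hs
  have h4 := h1.mul h3
  show HasProd (fK (K := F) a b D s) (f s * g s)
  rw [← (Equiv.sigmaFiberEquiv (und (K := K) (F := F))).hasProd_iff]
  refine HasProd.sigma_of_hasProd h4 (fun v => ?_)
    ((Equiv.sigmaFiberEquiv (und (K := K) (F := F))).multipliable_iff.2 (multipliable_fK hab hD s hs))
  show HasProd (fun w : {w : HeightOneSpectrum (𝓞 F) // und w = v} => fK a b D s w.1) _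
  by_cases hv : ((below v : ℕ) : ℤ) ∣ 2 * (4 * a ^ 3 + 27 * b ^ 2) * D
  · -- bad places
    have hv' : ((below v : ℕ) : ℤ) ∣ 2 * (4 * (a * d ^ 2) ^ 3 + 27 * (b * d ^ 3) ^ 2) * D := by
      have e : 2 * (4 * (a * d ^ 2) ^ 3 + 27 * (b * d ^ 3) ^ 2) * D =
          (2 * (4 * a ^ 3 + 27 * b ^ 2) * D) * d ^ 6 := by ring
      rw [e]
      exact hv.mul_right _
    rw [fK_bad v s hv, fK_bad v s hv', one_mul]
    have h5 : (fun w : {w : HeightOneSpectrum (𝓞 F) // und w = v} => fK a b D s w.1) =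
        fun _ => 1 := by
      funext w
      obtain ⟨w, rfl⟩ := w
      obtain ⟨k, hk, e, -⟩ := nm_pow (K := K) w rfl
      refine fK_bad w s ?_
      rw [(deg_of hk e).1]
      exact hv
    rw [h5]
    exact hasProd_one
  · have hpp : (below v : ℕ).Prime := (below v).2
    have hp2 : (below v : ℕ) ≠ 2 := by
      intro h
      apply hv
      rw [h]
      exact (dvd_mul_right _ _).mul_right _
    have hd : ¬ ((below v : ℕ) : ℤ) ∣ d := fun h3 => hv ((h3.trans hdD).mul_left _)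
    obtain ⟨l1, l2⟩ := loc (b := b) (d := d) hdD s v hv
    by_cases hs1 : jacobiSym d (below v) ^ deg v = 1
    · -- two places
      obtain ⟨c, hc⟩ := (sq_iff v hp2 hd).2 hs1
      have h2d : ((2 * d : ℤ) : 𝓞 K) ∉ v.asIdeal := by
        rw [intCast_mem_iff]
        intro h
        rcases (Nat.prime_iff_prime_int.1 hpp).dvd_or_dvd h with h | h
        · have h6 := Int.le_of_dvd (by norm_num) h
          have := hpp.two_le
          omega
        · exact hd h
      obtain ⟨w₁, w₂, hne, hw, b₁, b₂, d₁, d₂⟩ := split h2 hX2 hxK' h2d hc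
      have m₁ : und w₁ = v := (hw w₁).2 (Or.inl rfl)
      have m₂ : und w₂ = v := (hw w₂).2 (Or.inr rfl)
      have h5 := hasProd_prod_of_ne_finset_one (L := SummationFilter.unconditional _)
        (f := fun w : {w : HeightOneSpectrum (𝓞 F) // und w = v} => fK a b D s w.1)
        (s := {⟨w₁, m₁⟩, ⟨w₂, m₂⟩}) (fun w hw' => by
          exfalso
          apply hw'
          rw [Finset.mem_insert, Finset.mem_singleton]
          rcases (hw w.1).1 w.2 with h | h
          · exact Or.inl (Subtype.ext h)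
          · exact Or.inr (Subtype.ext h))
      rw [Finset.prod_pair (fun h => hne (congrArg Subtype.val h))] at h5
      have k₁ : fK a b D s w₁ = fK a b D s v := by
        rw [fK_good v s hv, fK_good w₁ s (by rw [b₁]; exact hv), b₁, d₁]
      have k₂ : fK a b D s w₂ = fK a b D s v := by
        rw [fK_good v s hv, fK_good w₂ s (by rw [b₂]; exact hv), b₂, d₂]
      rw [k₁, k₂] at h5
      rw [l1 hs1]
      exact h5
    · have hc : ∀ c : 𝓞 K, c ^ 2 - (d : 𝓞 K) ∉ v.asIdeal := by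
        intro c hc
        exact hs1 ((sq_iff v hp2 hd).1 ⟨c, hc⟩)
      obtain ⟨w₁, hw, b₁, d₁⟩ := inert h2 hX2 hc
      have m₁ : und w₁ = v := (hw w₁).2 rfl
      have h5 := hasProd_prod_of_ne_finset_one (L := SummationFilter.unconditional _)
        (f := fun w : {w : HeightOneSpectrum (𝓞 F) // und w = v} => fK a b D s w.1)
        (s := {⟨w₁, m₁⟩}) (fun w hw' => by
          exfalso
          apply hw'
          rw [Finset.mem_singleton]
          exact Subtype.ext ((hw w.1).1 w.2))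
      rw [Finset.prod_singleton] at h5
      have k₁ : fK a b D s w₁ = fK a b D s v * fK (a * d ^ 2) (b * d ^ 3) D s v := by
        rw [l2 hs1, fK_good w₁ s (by rw [b₁]; exact hv), b₁, d₁]
      rw [k₁] at h5
      exact h5

end Pool.Agent.X99.RL
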