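import Mathlib
import Pool.Agent.X99.RL.Eul

/-!
# The Euler product over `K(√d_1, …, √d_n)`
-/

set_option autoImplicit false
set_option linter.unusedSectionVars false

open IsDedekindDomain NumberField

namespace Pool.Agent.X99.RL

open Pool.Agent.H921R2.TatePole (nm two_le_nm nm_summable below deg nm_eq)
open Pool.Agent.Y19.QT (IsLFunK av qv)
open Pool.Agent.Y73.QMQ1 (fK fK_good fK_bad multipliable_fK)

/-- an extension of degree one -/
theorem triv {K F : Type} [Field K] [NumberField K] [Field F] [NumberField F] [Algebra K F]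
    {a b D : ℤ} (hab : 4 * a ^ 3 + 27 * b ^ 2 ≠ 0) (hD : D ≠ 0)
    (h1 : Module.finrank K F = 1) {f : ℂ → ℂ} (hf : IsLFunK K a b D f) : IsLFunK F a b D f := by
  classical
  refine ⟨hf.1, fun s hs => ?_⟩
  have h4 : HasProd (fK (K := K) a b D s) (f s) := hf.2 s hs
  show HasProd (fK (K := F) a b D s) (f s)
  rw [← (Equiv.sigmaFiberEquiv (und (K := K) (F := F))).hasProd_iff]
  refine HasProd.sigma_of_hasProd h4 (fun v => ?_)
    ((Equiv.sigmaFiberEquiv (und (K := K) (F := F))).multipliable_iff.2 (multipliable_fK hab hD s hs))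
  show HasProd (fun w : {w : HeightOneSpectrum (𝓞 F) // und w = v} => fK a b D s w.1) _
  obtain ⟨w₁, hw, b₁, d₁⟩ := trivial_ext h1 v
  have m₁ : und w₁ = v := (hw w₁).2 rfl
  have h5 := hasProd_prod_of_ne_finset_one (L := SummationFilter.unconditional _)
    (f := fun w : {w : HeightOneSpectrum (𝓞 F) // und w = v} => fK a b D s w.1)
    (s := {⟨w₁, m₁⟩}) (fun w hw' => by
      exfalso
      apply hw'
      rw [Finset.mem_singleton]
      exact Subtype.ext ((hw w.1).1 w.2))
  rw [Finset.prod_singleton] at h5
  have k₁ : fK a b D s w₁ = fK a b D s v := by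
    by_cases hv : ((below v : ℕ) : ℤ) ∣ 2 * (4 * a ^ 3 + 27 * b ^ 2) * D
    · rw [fK_bad v s hv, fK_bad w₁ s (by rw [b₁]; exact hv)]
    · rw [fK_good v s hv, fK_good w₁ s (by rw [b₁]; exact hv), b₁, d₁]
  rw [k₁] at h5
  exact h5

/-- products over the subsets of `Fin (n + 1)` -/
theorem prod_sets {M : Type*} [CommMonoid M] {n : ℕ} (G : Finset (Fin (n + 1)) → M) :
    ∏ T : Finset (Fin (n + 1)), G T = ∏ T : Finset (Fin n),
      (G (T.map (Fin.succEmb n)) * G (insert 0 (T.map (Fin.succEmb n)))) := by
  classical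
  have e0 : (Finset.univ : Finset (Fin (n + 1))) =
      insert 0 ((Finset.univ : Finset (Fin n)).map (Fin.succEmb n)) := by
    ext i
    simp only [Finset.mem_univ, Finset.mem_insert, Finset.mem_map, true_and, true_iff]
    rcases Fin.eq_zero_or_eq_succ i with h | ⟨j, h⟩
    · exact Or.inl h
    · exact Or.inr ⟨j, h.symm⟩
  have h0 : (0 : Fin (n + 1)) ∉ (Finset.univ : Finset (Fin n)).map (Fin.succEmb n) := by
    rw [Finset.mem_map]
    rintro ⟨j, -, hj⟩
    exact Fin.succ_ne_zero j hj
  rw [← Finset.powerset_univ, e0, Finset.prod_powerset_insert h0, ← Finset.prod_mul_distrib]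
  symm
  refine Finset.prod_bij (fun T _ => T.map (Fin.succEmb n)) (fun T _ => ?_) (fun T _ T' _ h => ?_)
    (fun U hU => ?_) (fun T _ => rfl)
  · rw [Finset.mem_powerset]
    exact Finset.map_subset_map.2 (Finset.subset_univ T)
  · exact Finset.map_injective _ h
  · rw [Finset.mem_powerset, Finset.subset_map_iff] at hU
    obtain ⟨T, -, rfl⟩ := hU
    exact ⟨T, Finset.mem_univ _, rfl⟩

theorem prod_map {n : ℕ} (d : Fin (n + 1) → ℤ) (T : Finset (Fin n)) :
    ∏ i ∈ T.map (Fin.succEmb n), d i = ∏ i ∈ T, d i.succ := by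
  rw [Finset.prod_map]
  rfl

theorem prod_ins {n : ℕ} (d : Fin (n + 1) → ℤ) (T : Finset (Fin n)) :
    ∏ i ∈ insert 0 (T.map (Fin.succEmb n)), d i = d 0 * ∏ i ∈ T, d i.succ := by
  rw [Finset.prod_insert, prod_map]
  rw [Finset.mem_map]
  rintro ⟨j, -, hj⟩
  exact Fin.succ_ne_zero j hj

/-- `F = K(√d_1, …, √d_n)` has degree `2 ^ n` over `K` -/
structure Mq (K F : Type) [Field K] [NumberField K] [Field F] [NumberField F] [Algebra K F]
    {n : ℕ} (d : Fin n → ℤ) : Prop where
  deg : Module.finrank K F = 2 ^ n
  gen : ∃ x : Fin n → F, (∀ i, x i ^ 2 = (d i : F)) ∧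
    IntermediateField.adjoin K (Set.range x) = ⊤

/-- a quadratic extension by a square root has degree at most two -/
theorem deg_le {K F : Type} [Field K] [Field F] [Algebra K F] {x : F} {d : ℤ}
    (hx : x ^ 2 = (d : F)) : Module.finrank K (IntermediateField.adjoin K {x}) ≤ 2 ∧
      FiniteDimensional K (IntermediateField.adjoin K {x}) := by
  have hint : IsIntegral K x := by
    refine IsIntegral.of_pow (n := 2) (by norm_num) ?_
    rw [hx]
    have := isIntegral_algebraMap (R := K) (A := F) (x := (d : K))
    rwa [map_intCast] at this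
  refine ⟨?_, IntermediateField.adjoin.finiteDimensional hint⟩
  rw [IntermediateField.adjoin.finrank hint]
  have h1 : (Polynomial.X ^ 2 - Polynomial.C (d : K)).natDegree = 2 :=
    Polynomial.natDegree_X_pow_sub_C
  rw [← h1]
  refine Polynomial.natDegree_le_of_dvd ?_ ?_
  · refine minpoly.dvd K x ?_
    rw [map_sub, map_pow, Polynomial.aeval_X, Polynomial.aeval_C, map_intCast, hx, sub_self]
  · intro h0
    rw [h0, Polynomial.natDegree_zero] at h1
    exact absurd h1 (by norm_num)

/-- the degree is at most `2 ^ n` -/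
theorem deg_le_pow : ∀ (n : ℕ) (K F : Type) [Field K] [Field F] [Algebra K F] (x : Fin n → F)
    (d : Fin n → ℤ) (_ : ∀ i, x i ^ 2 = (d i : F))
    (_ : IntermediateField.adjoin K (Set.range x) = ⊤), Module.finrank K F ≤ 2 ^ n := by
  intro n
  induction n with
  | zero =>
    intro K F _ _ _ x d _ hgen
    have h1 : (Set.range x) = ∅ := Set.range_eq_empty x
    rw [h1, IntermediateField.adjoin_empty] at hgen
    rw [pow_zero]
    have h2 := IntermediateField.finrank_bot (F := K) (E := F)
    rw [hgen, IntermediateField.finrank_top'] at h2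
    exact h2.le
  | succ n ih =>
    intro K F _ _ _ x d hx hgen
    set L := IntermediateField.adjoin K {x 0} with hL
    have h1 : Module.finrank L F ≤ 2 ^ n := by
      refine ih L F (fun i => x i.succ) (fun i => d i.succ) (fun i => hx i.succ) ?_
      rw [eq_top_iff]
      intro y _
      have h2 : (⊤ : IntermediateField K F) ≤
          (IntermediateField.adjoin L (Set.range fun i : Fin n => x i.succ)).restrictScalars K := by
        rw [← hgen, IntermediateField.adjoin_le_iff]
        rintro z ⟨i, rfl⟩
        rcases Fin.eq_zero_or_eq_succ i with h | ⟨j, h⟩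
        · rw [h]
          have h3 : (⟨x 0, IntermediateField.mem_adjoin_simple_self K (x 0)⟩ : L) ∈
              (⊤ : Set L) := trivial
          exact (IntermediateField.adjoin L (Set.range fun i : Fin n => x i.succ)).algebraMap_mem
            (⟨x 0, IntermediateField.mem_adjoin_simple_self K (x 0)⟩ : L)
        · rw [h]
          exact IntermediateField.subset_adjoin L _ ⟨j, rfl⟩
      exact h2 (IntermediateField.mem_top (x := y))
    have h2 := (deg_le (K := K) (hx 0)).1
    rw [← Module.finrank_mul_finrank K L F, pow_succ, mul_comm (2 ^ n)]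
    exact Nat.mul_le_mul h2 h1

/-- **the Euler product over `K(√d_1, …, √d_n)`** -/
theorem tower : ∀ (n : ℕ) (K F : Type) [Field K] [NumberField K] [Field F] [NumberField F]
    [Algebra K F] (d : Fin n → ℤ) (_ : Mq K F d) (a b D : ℤ)
    (_ : 4 * a ^ 3 + 27 * b ^ 2 ≠ 0) (_ : D ≠ 0) (_ : ∀ i, d i ∣ D)
    (G : Finset (Fin n) → ℂ → ℂ)
    (_ : ∀ T, IsLFunK K (a * (∏ i ∈ T, d i) ^ 2) (b * (∏ i ∈ T, d i) ^ 3) D (G T)),
    IsLFunK F a b D (fun s => ∏ T : Finset (Fin n), G T s) := by
  intro n
  induction n with
  | zero =>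
    intro K F _ _ _ _ _ d hF a b D hab hD hd G hG
    have h1 := hG ∅
    rw [Finset.prod_empty, one_pow, one_pow, mul_one, mul_one] at h1
    have h2 : (fun s => ∏ T : Finset (Fin 0), G T s) = G ∅ := by
      funext s
      have h3 : (Finset.univ : Finset (Finset (Fin 0))) = {∅} := by decide
      rw [h3, Finset.prod_singleton]
    rw [h2]
    exact triv hab hD (by rw [hF.deg, pow_zero]) h1
  | succ n ih =>
    intro K F _ _ _ _ _ d hF a b D hab hD hd G hG
    obtain ⟨x, hx, hgen⟩ := hF.gen
    set L := IntermediateField.adjoin K {x 0} with hL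
    have hfdF : FiniteDimensional K F := Module.finite_of_finrank_pos (by
      rw [hF.deg]
      positivity)
    have hcz : CharZero L := charZero_of_injective_algebraMap (algebraMap K L).injective
    have hfdQ : FiniteDimensional ℚ L := by
      have : FiniteDimensional K L := (deg_le (K := K) (hx 0)).2
      exact FiniteDimensional.trans ℚ K L
    have hnf : NumberField L := ⟨⟩
    have hgen' : IntermediateField.adjoin L (Set.range fun i : Fin n => x i.succ) = ⊤ := by
      rw [eq_top_iff]
      intro y _
      have h2 : (⊤ : IntermediateField K F) ≤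
          (IntermediateField.adjoin L (Set.range fun i : Fin n => x i.succ)).restrictScalars K := by
        rw [← hgen, IntermediateField.adjoin_le_iff]
        rintro z ⟨i, rfl⟩
        rcases Fin.eq_zero_or_eq_succ i with h | ⟨j, h⟩
        · rw [h]
          exact (IntermediateField.adjoin L (Set.range fun i : Fin n => x i.succ)).algebraMap_mem
            (⟨x 0, IntermediateField.mem_adjoin_simple_self K (x 0)⟩ : L)
        · rw [h]
          exact IntermediateField.subset_adjoin L _ ⟨j, rfl⟩
      exact h2 (IntermediateField.mem_top (x := y))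
    have h1 : Module.finrank L F ≤ 2 ^ n := deg_le_pow n L F (fun i => x i.succ)
      (fun i => d i.succ) (fun i => hx i.succ) hgen'
    have h2 := (deg_le (K := K) (hx 0)).1
    have h3 : Module.finrank K L * Module.finrank L F = 2 ^ (n + 1) := by
      rw [Module.finrank_mul_finrank K L F, hF.deg]
    have h4 : Module.finrank K L = 2 ∧ Module.finrank L F = 2 ^ n := by
      have h2' : Module.finrank K L ≤ 2 := h2
      have h5 : 0 < 2 ^ n := by positivity
      rw [pow_succ] at h3
      constructor
      · by_contra hne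
        have h6 : Module.finrank K L ≤ 1 := by omega
        have h7 := Nat.mul_le_mul h6 h1
        omega
      · by_contra hne
        have h6 : Module.finrank L F < 2 ^ n := lt_of_le_of_ne h1 hne
        have h7 : Module.finrank K L * Module.finrank L F ≤ 2 * Module.finrank L F :=
          Nat.mul_le_mul_right _ h2'
        omega
    have hd0 : d 0 ≠ 0 := by
      intro h0
      have := hd 0
      rw [h0] at this
      exact hD (Int.zero_dvd.1 this)
    -- the quadratic step
    let x0 : L := ⟨x 0, IntermediateField.mem_adjoin_simple_self K (x 0)⟩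
    have hx0 : x0 ^ 2 = ((d 0 : ℤ) : L) := by
      apply Subtype.ext
      show x 0 ^ 2 = (((d 0 : ℤ) : L) : F)
      rw [hx 0]
      exact (map_intCast (algebraMap L F) (d 0)).symm
    have hxK : ∀ k : K, algebraMap K L k ≠ x0 := by
      intro k hk
      have h5 : x 0 ∈ (⊥ : IntermediateField K F) := by
        rw [IntermediateField.mem_bot]
        exact ⟨k, congrArg Subtype.val hk⟩
      have h6 : L = ⊥ := by
        rw [hL, IntermediateField.adjoin_simple_eq_bot_iff]
        exact h5
      have h7 : Module.finrank K L = 1 := by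
        rw [h6]
        exact IntermediateField.finrank_bot
      rw [h4.1] at h7
      exact absurd h7 (by norm_num)
    have hq : ∀ T : Finset (Fin n), IsLFunK L (a * (∏ i ∈ T, d i.succ) ^ 2)
        (b * (∏ i ∈ T, d i.succ) ^ 3) D
        (fun s => G (T.map (Fin.succEmb n)) s * G (insert 0 (T.map (Fin.succEmb n))) s) := by
      intro T
      have k1 := hG (T.map (Fin.succEmb n))
      have k2 := hG (insert 0 (T.map (Fin.succEmb n)))
      rw [prod_map] at k1
      rw [prod_ins] at k2
      have hT0 : ∏ i ∈ T, d i.succ ≠ 0 := Finset.prod_ne_zero_iff.2 fun i _ h0 => by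
        have := hd i.succ
        rw [h0] at this
        exact hD (Int.zero_dvd.1 this)
      refine quad (d := d 0) ?_ hD (hd 0) h4.1 hx0 hxK k1 ?_
      · have e : 4 * (a * (∏ i ∈ T, d i.succ) ^ 2) ^ 3 + 27 * (b * (∏ i ∈ T, d i.succ) ^ 3) ^ 2 =
            (∏ i ∈ T, d i.succ) ^ 6 * (4 * a ^ 3 + 27 * b ^ 2) := by ring
        rw [e]
        exact mul_ne_zero (pow_ne_zero _ hT0) hab
      · have e1 : a * (∏ i ∈ T, d i.succ) ^ 2 * d 0 ^ 2 = a * (d 0 * ∏ i ∈ T, d i.succ) ^ 2 := by
          ring
        have e2 : b * (∏ i ∈ T, d i.succ) ^ 3 * d 0 ^ 3 = b * (d 0 * ∏ i ∈ T, d i.succ) ^ 3 := by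
          ring
        rw [e1, e2]
        exact k2
    have h5 := ih L F (fun i => d i.succ) ⟨h4.2, ⟨fun i => x i.succ, fun i => hx i.succ, hgen'⟩⟩
      a b D hab hD (fun i => hd i.succ) _ hq
    have h6 : (fun s => ∏ T : Finset (Fin (n + 1)), G T s) = fun s => ∏ T : Finset (Fin n),
        (G (T.map (Fin.succEmb n)) s * G (insert 0 (T.map (Fin.succEmb n))) s) := by
      funext s
      exact prod_sets fun T => G T s
    rw [h6]
    exact h5

end Pool.Agent.X99.RL
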