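import Mathlib
import Pool.Agent.X99.RL.Tow

/-!
# The degree of `K(√d_1, …, √d_n)`
-/

set_option autoImplicit false
set_option linter.unusedSectionVars false

open IsDedekindDomain NumberField

namespace Pool.Agent.X99.RL

/-- square roots of squarefree integers in a cyclotomic field of prime conductor -/
theorem not_sq {r : ℕ} [hr : Fact r.Prime] (M : Type) [Field M] [NumberField M]
    [IsCyclotomicExtension {r} ℚ M] {y : M} {D : ℤ} (hD : Squarefree D) {p : ℕ} (hp : p.Prime)
    (hpD : (p : ℤ) ∣ D) (hpr : p ≠ r) (hy : y ^ 2 = (D : M)) : False := by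
  classical
  have hz : NeZero r := ⟨hr.out.ne_zero⟩
  have hfp : Fact p.Prime := ⟨hp⟩
  have hint : IsIntegral ℤ y := by
    refine IsIntegral.of_pow (n := 2) (by norm_num) ?_
    rw [hy]
    exact isIntegral_algebraMap (R := ℤ) (A := M) (x := D)
  obtain ⟨Y, hY⟩ : ∃ Y : 𝓞 M, (Y : M) = y := ⟨⟨y, hint⟩, rfl⟩
  have hY2 : Y ^ 2 = (D : 𝓞 M) := by
    apply RingOfIntegers.coe_injective
    rw [map_pow, map_intCast]
    show (Y : M) ^ 2 = (D : M)
    rw [hY, hy]
  obtain ⟨m, hm⟩ := hpD
  have hpm : ¬ (p : ℤ) ∣ m := by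
    rintro ⟨w, hw⟩
    have h1 : (p : ℤ) * p ∣ D := ⟨w, by rw [hm, hw]; ring⟩
    have h2 := hD _ h1
    have h3 := Int.isUnit_iff.1 h2
    have := hp.two_le
    omega
  -- a prime above `p`
  have hpi : Prime (p : ℤ) := Nat.prime_iff_prime_int.1 hp
  let q₀ : Ideal ℤ := Ideal.span {(p : ℤ)}
  have hq₀ : q₀.IsPrime := (Ideal.span_singleton_prime hpi.ne_zero).2 hpi
  have hq₀0 : q₀ ≠ ⊥ := by
    rw [Ne, Ideal.span_singleton_eq_bot]
    exact hpi.ne_zero
  have hq₀m : q₀.IsMaximal := hq₀.isMaximal hq₀0
  obtain ⟨P, hPm, hPo⟩ := Ideal.exists_maximal_ideal_liesOver_of_isIntegral (S := 𝓞 M) q₀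
  have hPp : P.IsPrime := hPm.isPrime
  have h1 : Ideal.ramificationIdx P ℤ = 1 :=
    IsCyclotomicExtension.Rat.ramificationIdx_eq_of_not_dvd (m := r) p M P
      (fun h => hpr ((Nat.prime_dvd_prime_iff_eq hp hr.out).1 h))
  have hinj : Function.Injective (algebraMap ℤ (𝓞 M)) := FaithfulSMul.algebraMap_injective _ _
  have hmap0 : q₀.map (algebraMap ℤ (𝓞 M)) ≠ ⊥ := by
    rw [Ne, Ideal.map_eq_bot_iff_of_injective hinj]
    exact hq₀0
  rw [Ideal.IsDedekindDomain.ramificationIdx_eq_multiplicity q₀ P hmap0] at h1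
  have hP0 : P ≠ ⊥ := by
    rintro rfl
    have h2 := hPo.over
    apply hq₀0
    rw [h2]
    exact (Ideal.comap_bot_of_injective _ hinj)
  have hPpr : Prime P := Ideal.prime_of_isPrime hP0 hPp
  have hmapE : q₀.map (algebraMap ℤ (𝓞 M)) = Ideal.span {((p : ℕ) : 𝓞 M)} := by
    rw [Ideal.map_span, Set.image_singleton, map_natCast]
  have hfin : FiniteMultiplicity P (q₀.map (algebraMap ℤ (𝓞 M))) :=
    FiniteMultiplicity.of_prime_left hPpr hmap0
  have h2 : emultiplicity P (Ideal.span {((p : ℕ) : 𝓞 M)}) = 1 := by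
    rw [← hmapE, hfin.emultiplicity_eq_multiplicity, h1]
    rfl
  have h3 : emultiplicity P (Ideal.span {((m : ℤ) : 𝓞 M)}) = 0 := by
    rw [emultiplicity_eq_zero, Ideal.dvd_span_singleton]
    intro h
    apply hpm
    have h4 : m ∈ q₀ := by
      rw [hPo.over]
      exact (show algebraMap ℤ (𝓞 M) m ∈ P from h)
    exact Ideal.mem_span_singleton.1 h4
  have h5 : Ideal.span {Y} ^ 2 = Ideal.span {((p : ℕ) : 𝓞 M)} * Ideal.span {((m : ℤ) : 𝓞 M)} := by
    rw [Ideal.span_singleton_pow, Ideal.span_singleton_mul_span_singleton, hY2, hm]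
    push_cast
    rfl
  have h6 := congrArg (emultiplicity P) h5
  rw [emultiplicity_pow hPpr, emultiplicity_mul hPpr, h2, h3, add_zero] at h6
  -- parity
  have h7 : emultiplicity P (Ideal.span {Y}) ≠ ⊤ := by
    intro h
    rw [h] at h6
    exact absurd h6 (by decide)
  obtain ⟨x, hx⟩ := ENat.ne_top_iff_exists.1 h7
  rw [← hx] at h6
  have h8 : 2 * x = 1 := by exact_mod_cast h6
  omega

/-- the degree, if no product is a square in `K` -/
theorem deg_of_ind : ∀ (n : ℕ) (K F : Type) [Field K] [NumberField K] [Field F] [NumberField F]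
    [Algebra K F] (d : Fin n → ℤ) (x : Fin n → F) (_ : ∀ i, x i ^ 2 = (d i : F))
    (_ : IntermediateField.adjoin K (Set.range x) = ⊤)
    (_ : ∀ T : Finset (Fin n), T.Nonempty → ∀ y : K, y ^ 2 ≠ ((∏ i ∈ T, d i : ℤ) : K)),
    Module.finrank K F = 2 ^ n := by
  intro n
  induction n with
  | zero =>
    intro K F _ _ _ _ _ d x _ hgen _
    have h1 : (Set.range x) = ∅ := Set.range_eq_empty x
    rw [h1, IntermediateField.adjoin_empty] at hgen
    rw [pow_zero]
    have h2 := IntermediateField.finrank_bot (F := K) (E := F)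
    rwa [hgen, IntermediateField.finrank_top'] at h2
  | succ n ih =>
    intro K F _ _ _ _ _ d x hx hgen hind
    classical
    set L := IntermediateField.adjoin K {x 0} with hL
    have hcz : CharZero L := charZero_of_injective_algebraMap (algebraMap K L).injective
    have hfdL : FiniteDimensional K L := (deg_le (K := K) (hx 0)).2
    have hfdQ : FiniteDimensional ℚ L := FiniteDimensional.trans ℚ K L
    have hnf : NumberField L := ⟨⟩
    have hgen' : IntermediateField.adjoin L (Set.range fun i : Fin n => x i.succ) = ⊤ := by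
      rw [eq_top_iff]
      intro y _
      have h2 : (⊤ : IntermediateField K F) ≤
          (IntermediateField.adjoin L (Set.range fun i : Fin n => x i.succ)).restrictScalars K := by
        rw [← hgen, IntermediateField.adjoin_le_iff]
        rintro z ⟨i, rfl⟩
        rcases Fin.eq_zero_or_eq_succ i with h | ⟨j, h⟩
        · rw [h]
          exact (IntermediateField.adjoin L (Set.range fun i : Fin n => x i.succ)).algebraMap_mem
            (⟨x 0, IntermediateField.mem_adjoin_simple_self K (x 0)⟩ : L)
        · rw [h]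
          exact IntermediateField.subset_adjoin L _ ⟨j, rfl⟩
      exact h2 (IntermediateField.mem_top (x := y))
    let x0 : L := ⟨x 0, IntermediateField.mem_adjoin_simple_self K (x 0)⟩
    have hx0 : x0 ^ 2 = ((d 0 : ℤ) : L) := by
      apply Subtype.ext
      show x 0 ^ 2 = (((d 0 : ℤ) : L) : F)
      rw [hx 0]
      exact (map_intCast (algebraMap L F) (d 0)).symm
    have hxK : ∀ k : K, algebraMap K L k ≠ x0 := by
      intro k hk
      refine hind {0} (Finset.singleton_nonempty 0) k ?_
      apply (algebraMap K L).injective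
      rw [map_pow, hk, hx0, Finset.prod_singleton, map_intCast]
    have h2 : Module.finrank K L = 2 := by
      have h3 : Module.finrank K L ≤ 2 := (deg_le (K := K) (hx 0)).1
      have h4 : 0 < Module.finrank K L := Module.finrank_pos
      by_contra hne
      have h5 : Module.finrank K L = 1 := by omega
      obtain ⟨k, hk⟩ := (Algebra.finrank_eq_one_iff_bijective_algebraMap.mp h5).2 x0
      exact hxK k hk
    rw [← Module.finrank_mul_finrank K L F, h2, pow_succ, mul_comm]
    congr 1
    refine ih L F (fun i => d i.succ) (fun i => x i.succ) (fun i => hx i.succ) hgen' ?_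
    intro T hT y hy
    -- `y = u + v √d`
    obtain ⟨σ, hσ⟩ := exists_conj (K := K) (F := L) h2 hx0 hxK
    have hgal : IsGalois K L := by
      refine Pool.Agent.Y682.YS.galois (n := 1) (fun _ => d 0) (fun _ => x0) (fun _ => hx0) ?_
      intro S hS hxS
      let S' : IntermediateField K L := Subfield.toIntermediateField S hS
      have h3 : Module.finrank K S' ∣ 2 := by
        rw [← h2]
        exact Dvd.intro _ (Module.finrank_mul_finrank K S' L)
      have h4 : S' = ⊤ := by
        rcases (Nat.dvd_prime Nat.prime_two).1 h3 with h5 | h5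
        · exfalso
          have h6 := IntermediateField.finrank_eq_one_iff.1 h5
          have h7 : x0 ∈ S' := hxS 0
          rw [h6, IntermediateField.mem_bot] at h7
          obtain ⟨k, hk⟩ := h7
          exact hxK k hk
        · exact IntermediateField.eq_of_le_of_finrank_eq le_top
            (by rw [h5, IntermediateField.finrank_top', h2])
      rw [eq_top_iff]
      intro y _
      have h8 : y ∈ S' := by rw [h4]; trivial
      exact h8
    have hcard : Nat.card (L ≃ₐ[K] L) = 2 := by rw [IsGalois.card_aut_eq_finrank, h2]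
    have hσ1 : σ ≠ 1 := by
      rintro rfl
      have h3 : x0 = -x0 := hσ
      have h4 : x0 = 0 := by
        have h5 : (2 : L) * x0 = 0 := by linear_combination h3
        exact (mul_eq_zero.1 h5).resolve_left two_ne_zero
      exact hxK 0 (by rw [map_zero, h4])
    have hall : ∀ τ : L ≃ₐ[K] L, τ = 1 ∨ τ = σ := by
      intro τ
      by_contra hcon
      rw [not_or] at hcon
      have hft : Finite (L ≃ₐ[K] L) := Nat.finite_of_card_ne_zero (by rw [hcard]; norm_num)
      let _ : Fintype (L ≃ₐ[K] L) := Fintype.ofFinite _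
      have h3 : ({1, σ, τ} : Finset (L ≃ₐ[K] L)).card = 3 := by
        rw [Finset.card_eq_three]
        exact ⟨1, σ, τ, fun h => hσ1 h.symm, fun h => hcon.1 h.symm, fun h => hcon.2 h.symm, rfl⟩
      have h4 := Finset.card_le_univ ({1, σ, τ} : Finset (L ≃ₐ[K] L))
      rw [h3, ← Nat.card_eq_fintype_card, hcard] at h4
      omega
    have hfix : ∀ z : L, σ z = z → ∃ k : K, algebraMap K L k = z := by
      intro z hz
      have h3 := (IsGalois.mem_bot_iff_fixed z).2 (fun τ => by
        rcases hall τ with rfl | rfl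
        · rfl
        · exact hz)
      rw [IntermediateField.mem_bot] at h3
      exact h3
    have h3 : σ y ^ 2 = y ^ 2 := by rw [← map_pow, hy, map_intCast]
    rcases sq_eq_sq_iff_eq_or_eq_neg.1 h3 with h | h
    · obtain ⟨k, hk⟩ := hfix y h
      refine hind (T.map (Fin.succEmb n)) (by
        obtain ⟨i, hi⟩ := hT
        exact ⟨_, Finset.mem_map_of_mem _ hi⟩) k ?_
      apply (algebraMap K L).injective
      rw [map_pow, hk, hy, prod_map, map_intCast]
    · obtain ⟨k, hk⟩ := hfix (y * x0) (by rw [map_mul, h, hσ]; ring)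
      refine hind (insert 0 (T.map (Fin.succEmb n))) (Finset.insert_nonempty _ _) k ?_
      apply (algebraMap K L).injective
      rw [map_pow, hk, mul_pow, hy, hx0, prod_ins, map_intCast]
      push_cast
      ring

end Pool.Agent.X99.RL
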